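import Pool.Agent.KS6_92.Hx3

/-!
# Links on hexagonal mosaics all of whose interior tiles are triple-crossing tiles

The definitions of mosaics and of the knots they realize are in
`Pool.Graph.R_pool_sql_team_seeded_3997aac3.Q174.HX.Defs` of the starting library.  There it is proved
that the link diagram on such a mosaic has more than one component for `r ≥ 3`, so that only knots
with three crossings are realized (with `r = 2`), and not the figure-eight knot.

Here the *exact* minimal number of components is determined, for every `r ≥ 2`: it is
`⌊(r + 1) / 2⌋`.  So a link with `c` components is realized only on boards with `r ≤ 2 c`, and the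
question has a negative answer for links with any number `c` of components: only finitely many of
them are realized.

**Lower bound.**  Let `n = r - 1`.  The interior tiles consist of the lines in the three directions.
By parity, on three alternate sides of the board no connection points lie on the lateral edges of the
boundary tiles, so that these sides reflect the lines: the line with the parameter `j` in one
direction is joined to the line with the parameter `n - j` in another one.  Hence the lines with the
parameters `j` and `n - j`, for `0 < j < n`, form a component (of three or six lines); this gives
`⌊n / 2⌋` components, and the line through the centre of the board is in none of them.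

**Sharpness.**  The other three sides are built such that all the remaining lines form one component
(`Pool.Agent.KS6_92.Hx1.mos`).
-/

set_option autoImplicit false

namespace Pool.Agent.Results.MP_d1968e_gt.ManyComponents

open Q174.HF Q174.HX Pool.Agent.KS6_92.Hx0

/-- **The minimal number of components of links on mosaics with triple-crossing interior tiles.** -/
theorem result :
    (∀ M : Mosaic, M.SuitablyConnected → M.InteriorTriple →
      (M.OneComponent ↔ components M = 1) ∧ (M.r + 1) / 2 ≤ components M ∧
      crossingNumber M ≤ 9 * (4 * components M) ^ 2) ∧
    (∀ r : ℕ, 2 ≤ r → ∃ M : Mosaic, M.r = r ∧ M.SuitablyConnected ∧ M.InteriorTriple ∧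
      components M = (r + 1) / 2) ∧
    (∀ M : Mosaic, M.InteriorTriple → ¬ M.Realizes figureEight) := by
  refine ⟨fun M hc ht => ⟨oneComponent_iff hc, le_components hc ht, ?_⟩,
    Pool.Agent.KS6_92.Hx3.sharp, fun M ht => not_figureEight ht⟩
  have h := le_components hc ht
  have h2 := M.two_le
  obtain ⟨n, hr⟩ : ∃ n, M.r = n + 1 := ⟨M.r - 1, by omega⟩
  refine (crossing_le hr).trans ?_
  have h3 : 2 * n + 1 ≤ 4 * components M := by omega
  gcongr

end Pool.Agent.Results.MP_d1968e_gt.ManyComponents
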